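import Pool.Agent.Helper90.MZ.StmtsC

/-! Module ORBC of the crew table `mz_mods`. -/

set_option autoImplicit false

namespace Pool.Agent.Helper90.MZ

open Pool.Agent.Helper90.TS

theorem orbc_mv_one {V G : Type} [Group G] [MulAction G V] (p : Ty V) : mv (1 : G) p = p := by
  cases p with
  | mk A D z =>
    unfold mv
    simp only [inv_one, one_smul, tr_one, Set.ofPred_mem_eq]

theorem st_ORBC (h1 : ST_FO) (h2 : ST_NOEQ) (h3 : ST_INVA) : ST_ORBC := by
  classical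
  intro V G _ _ X b C hb hC hCC
  obtain ⟨n1, n2, n3⟩ := h2 V G X
  have hmvS : ∀ (g : G) (n : ℕ), SR X (mv g (C n)) := fun g n => (h3 V G X g).2.2.1 _ (hC n).1
  obtain ⟨R, hR⟩ : ∃ R : ℕ → ℕ → Prop, ∀ n m, R n m ↔ ∃ σ ∈ Fx G b, NO X (mv σ (C n)) (C m) :=
    ⟨_, fun _ _ => Iff.rfl⟩
  have hrefl : ∀ n, R n n := by
    intro n
    rw [hR]
    refine ⟨1, one_mem _, ?_⟩
    rw [orbc_mv_one]
    exact n1 _ (hC n).1
  have hsymm : ∀ n m, R n m → R m n := by
    intro n m h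
    rw [hR] at h ⊢
    obtain ⟨σ, hσ, hno⟩ := h
    refine ⟨σ⁻¹, inv_mem hσ, ?_⟩
    have h4 := (h3 V G X σ⁻¹).2.2.2.1 _ _ hno
    rw [(h3 V G X σ).1] at h4
    exact n2 _ _ h4
  have hfin : ∀ n, {m | R n m}.Finite := by
    intro n
    obtain ⟨k, τ, hτ, hcov⟩ := (h1 V G X b (C n) hb (hC n).1 (hC n).2.1 (hC n).2.2).2.1
    have hch : ∀ m, R n m → ∃ i : Fin k, NO X (mv (τ i) (C n)) (C m) := by
      intro m hm
      rw [hR] at hm
      obtain ⟨σ, hσ, hno⟩ := hm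
      obtain ⟨i, hi⟩ := hcov σ hσ
      exact ⟨i, n3 _ _ _ (hmvS _ _) (hmvS _ _) (hC m).1 (n2 _ _ hi) hno⟩
    obtain ⟨S, hS⟩ : ∃ S : Fin k → Set ℕ, ∀ i, S i = {m | NO X (mv (τ i) (C n)) (C m)} :=
      ⟨_, fun _ => rfl⟩
    have hSf : ∀ i, (S i).Finite := by
      intro i
      apply Set.Subsingleton.finite
      intro m hm m' hm'
      rw [hS] at hm hm'
      by_contra hne
      exact hCC m m' hne (n3 _ _ _ (hC m).1 (hmvS _ _) (hC m').1 (n2 _ _ hm) hm')
    refine (Set.finite_iUnion hSf).subset ?_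
    intro m hm
    obtain ⟨i, hi⟩ := hch m hm
    rw [Set.mem_iUnion]
    exact ⟨i, by rw [hS]; exact hi⟩
  obtain ⟨f, -, hf⟩ := exists_seq_of_forall_finset_exists (fun _ : ℕ => True)
    (fun x y => ¬ R x y) (by
      intro s _
      have h5 : (⋃ x ∈ s, {m | R x m}).Finite := s.finite_toSet.biUnion fun x _ => hfin x
      obtain ⟨y, hy⟩ := h5.exists_notMem
      refine ⟨y, trivial, fun x hx hxy => hy ?_⟩
      rw [Set.mem_iUnion₂]
      exact ⟨x, hx, hxy⟩)
  refine ⟨f, ?_, ?_⟩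
  · intro m n hmn
    rcases lt_trichotomy m n with h | h | h
    · exact absurd (by rw [hmn]; exact hrefl _) (hf m n h)
    · exact h
    · exact absurd (by rw [hmn]; exact hrefl _) (hf n m h)
  · intro m n σ hσ hno
    have h6 : R (f m) (f n) := by
      rw [hR]
      exact ⟨σ, hσ, hno⟩
    rcases lt_trichotomy m n with h | h | h
    · exact absurd h6 (hf m n h)
    · exact h
    · exact absurd (hsymm _ _ h6) (hf n m h)

end Pool.Agent.Helper90.MZ
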