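import Pool.Agent.Helper90.MZ.StmtsA

/-! Module SRFIN of the crew table `mz_mods`. -/

set_option autoImplicit false

namespace Pool.Agent.Helper90.MZ

open Pool.Agent.Helper90.TS

theorem srfin_uni {V G : Type} [Group G] [MulAction G V] (X : Ctx V G) {A C : Set V}
    {z b b' : Fin 1 → V} (hC : C.Countable) (hAC : A ⊆ C) (hs : Sta X A z) (h1 : Eqv G A z b)
    (h2 : Eqv G A z b') (h3 : SI X A (Set.range b) C) (h4 : SI X A (Set.range b') C) :
    Eqv G C b b' := by
  have hA : A.Countable := hC.mono hAC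
  have e : A ∪ C = C := Set.union_eq_self_of_subset_left hAC
  have r1 : X.rk C b = X.rk A b := by
    have := (rk_si (X := X) (b := b) hA hC).2 h3
    rwa [e] at this
  have r2 : X.rk C b' = X.rk A b' := by
    have := (rk_si (X := X) (b := b') hA hC).2 h4
    rwa [e] at this
  have k := (a_rkb V G X (Fin 1) z).2.2.2.2.2
  exact a_uni V G X A C hC hAC (Fin 1) z b b' hs h1 h2 (r1.trans (k A b h1)) (r2.trans (k A b' h2))

theorem srfin_fs {V G : Type} [Group G] [MulAction G V] (X : Ctx V G) {A : Set V}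
    (hA : A.Countable) {D : Set (Fin 1 → V)} (hD : X.Ov A D) :
    ∃ F ⊆ A, F.Finite ∧ X.Ov F D := by
  obtain ⟨m, a, E, ha, hE, hDE⟩ := st_FSUP V G X A hA (Fin 1) D hD
  refine ⟨Set.range a, ha, Set.finite_range a, hD.1, fun g hg x hx => ?_⟩
  rw [hDE] at hx ⊢
  have h1 : g • a = a := fx_range.1 hg
  have h2 : g • Sum.elim a x ∈ E := ((ov_empty_iff X).1 hE).2 g (Subgroup.mem_top g) _ hx
  rw [smul_elim, h1] at h2
  exact h2

theorem st_SRFIN (h2 : ST_BC) (h3 : ST_INVA) : ST_SRFIN := by
  intro V G _ _ X p hp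
  have hpc : p.A.Countable := hp.cnt
  obtain ⟨D', hD', hzD', hdg⟩ := hp.sta
  obtain ⟨F1, hF1, hF1f, hF1o⟩ := srfin_fs X hpc hp.ov
  obtain ⟨F2, hF2, hF2f, hF2o⟩ := srfin_fs X hpc hD'
  obtain ⟨F3, hF3, hF3f, hF3r⟩ := a_rkl V G X p.A hpc (Fin 1) p.z
  refine ⟨F1 ∪ F2 ∪ F3, Set.union_subset (Set.union_subset hF1 hF2) hF3,
    (hF1f.union hF2f).union hF3f, ?_⟩
  intro A' hA0 hA'
  have hA'c : A'.Countable := hpc.mono hA'
  have hF1' : F1 ⊆ A' := (Set.subset_union_left.trans Set.subset_union_left).trans hA0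
  have hF2' : F2 ⊆ A' := (Set.subset_union_right.trans Set.subset_union_left).trans hA0
  have hF3' : F3 ⊆ A' := Set.subset_union_right.trans hA0
  have hmono := (a_rkb V G X (Fin 1) p.z).2.2.2.1
  have hrk : X.rk A' p.z = X.rk p.A p.z :=
    le_antisymm ((hmono F3 A' hF3').trans (le_of_eq hF3r)) (hmono A' p.A hA')
  have hDo : X.Ov A' p.D := ov_mono X hF1' hF1o
  have hsta : Sta X A' p.z := ⟨D', ov_mono X hF2' hF2o, hzD', by rw [hrk]; exact hdg⟩
  have eA : A' ∪ p.A = p.A := Set.union_eq_self_of_subset_left hA'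
  have hsi : SI X A' (Set.range p.z) p.A := (rk_si hA'c hpc).1 (by rw [eA, hrk])
  -- the last item
  have hlast : ∀ (B : Set V) (y : Fin 1 → V), B.Countable →
      (Rl X p B y ↔ Rl X ⟨A', p.D, p.z⟩ (p.A ∪ B) y) := by
    intro B y hB
    constructor
    · rintro ⟨he, hi⟩
      refine ⟨eqv_mono hA' he, ?_⟩
      obtain ⟨g, hg, hgy⟩ := he
      have h5 : SI X A' (Set.range y) p.A := by
        have h6 := (si_fx_left (X := X) (B := Set.range p.z) hA'c (Set.countable_range _) hpc
          (g := g) (by rw [eA]; exact hg)).2 hsi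
        rwa [tr_range, hgy] at h6
      exact si_trans' (Set.countable_range _) hpc hB hA' h5 hi
    · rintro ⟨he, hi⟩
      have h5 := (si_union (X := X) hA'c (Set.countable_range y) hpc hB).1 hi
      rw [eA] at h5
      exact ⟨srfin_uni X hpc hA' hsta (eqv_refl _ _) he hsi h5.1, h5.2⟩
  have hno : NO X p ⟨A', p.D, p.z⟩ ∧ NO X ⟨A', p.D, p.z⟩ p := by
    have h5 : Rl X p ∅ p.z := ⟨eqv_refl _ _, si_empty_right⟩
    obtain ⟨-, h6, h7, -⟩ := h2 V G X p ∅ p.z hp Set.countable_empty h5
    obtain ⟨B, y, y', hB, hpB, -, hy, hy', hn⟩ := h7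
    have hpy' : Rl X p B y' := by
      have h8 := (h6 B y' hB).1 hy'
      rwa [Set.empty_union] at h8
    have hq : Rl X ⟨A', p.D, p.z⟩ B y := by
      have h8 := (hlast B y hB).1 hy
      rwa [Set.union_eq_self_of_subset_left hpB] at h8
    have hq' : Rl X ⟨A', p.D, p.z⟩ B y' := by
      have h8 := (hlast B y' hB).1 hpy'
      rwa [Set.union_eq_self_of_subset_left hpB] at h8
    exact ⟨⟨B, y, y', hB, hpB, hA'.trans hpB, hy, hq', hn⟩,
      ⟨B, y, y', hB, hA'.trans hpB, hpB, hq, hpy', hn⟩⟩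
  refine ⟨⟨hA'c, hDo, hp.mem, hsta, ?_, ?_⟩, hno.2, hno.1, hsi, hlast⟩
  · rw [hrk]
    exact hp.nal
  · intro B hB y hy
    by_contra hcon
    push Not at hcon
    obtain ⟨hny, z', hz', hnsi⟩ := hcon
    have hcz : (Set.range z').Countable := Set.countable_range _
    have hcy : (Set.range y).Countable := Set.countable_range _
    obtain ⟨g, hg, hgi⟩ := si_ex (X := X) (A := A') (B := p.A)
      (C := B ∪ (Set.range z' ∪ Set.range y)) hA'c hpc (hB.union (hcz.union hcy))
    obtain ⟨P, hP⟩ : ∃ P, P = tr g p.A := ⟨_, rfl⟩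
    rw [← hP] at hgi
    have hPc : P.Countable := by rw [hP]; exact tr_countable g hpc
    have hA'P : A' ⊆ P := by
      have h5 := tr_mono g hA'
      rwa [tr_fx hg, ← hP] at h5
    have eP : A' ∪ P = P := Set.union_eq_self_of_subset_left hA'P
    -- independence over `A' ∪ B`
    have i1 : SI X A' P B ∧ SI X (A' ∪ B) P (Set.range z' ∪ Set.range y) :=
      (si_union hA'c hPc hB (hcz.union hcy)).1 hgi
    have hABc : (A' ∪ B).Countable := hA'c.union hB
    have i2 : SI X (A' ∪ B) P (Set.range z') := si_right hABc hPc (hcz.union hcy)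
      Set.subset_union_left i1.2
    have i3 : SI X (A' ∪ B) P (Set.range y) := si_right hABc hPc (hcz.union hcy)
      Set.subset_union_right i1.2
    have i4 : SI X A' (Set.range z') (B ∪ P) := si_trans hA'c hcz hB hPc hz'.2
      (si_symm hABc hPc hcz i2)
    rw [Set.union_comm] at i4
    have i5 := (si_union (X := X) hA'c hcz hPc hB).1 i4
    rw [eP] at i5
    have i6 : SI X A' (Set.range (g • p.z)) P := by
      have h5 := (si_fx (X := X) (B := Set.range p.z) hA'c (Set.countable_range _) hpc hg).2 hsi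
      rwa [tr_range, ← hP] at h5
    have hez : Eqv G A' p.z (g • p.z) := ⟨g, hg, rfl⟩
    have hRz' : Rl X (mv g p) B z' := by
      refine ⟨?_, ?_⟩
      · have h5 := srfin_uni X hPc hA'P hsta hez hz'.1 i6 i5.1
        rw [hP] at h5
        exact h5
      · have h5 := i5.2
        rw [hP] at h5
        exact h5
    have hyD : y ∈ (mv g p).D := by
      show g⁻¹ • y ∈ p.D
      exact hDo.2 g⁻¹ (inv_mem hg) y hy
    rcases ((h3 V G X g).2.2.1 p hp).reg B hB y hyD with hR | hR
    · apply hny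
      obtain ⟨r1, r2⟩ := hR
      have r1' : Eqv G P (g • p.z) y := by rw [hP]; exact r1
      have r2' : SI X P (Set.range y) B := by rw [hP]; exact r2
      refine ⟨eqv_trans hez (eqv_mono hA'P r1'), ?_⟩
      have h5 : SI X A' (Set.range y) P := by
        refine si_symm hA'c hPc hcy (si_right hA'c hPc (hB.union (hcz.union hcy)) ?_ hgi)
        exact Set.subset_union_right.trans Set.subset_union_right
      have h6 := si_trans' (X := X) hcy hPc hB hA'P h5 r2'
      exact si_right hA'c hcy (hPc.union hB) Set.subset_union_right h6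
    · apply hnsi
      have h5 : SI X (P ∪ B) (Set.range z') (Set.range y) := by
        have := hR z' hRz'
        rw [hP]
        exact this
      have hPBc : (P ∪ B).Countable := hPc.union hB
      have h6 : SI X (A' ∪ B ∪ P) (Set.range y) (Set.range z') := by
        have e : A' ∪ B ∪ P = P ∪ B := by
          rw [Set.union_assoc, Set.union_comm B P, ← Set.union_assoc, eP]
        rw [e]
        exact si_symm hPBc hcz hcy h5
      have h7 := si_trans (X := X) hABc hcy hPc hcz (si_symm hABc hPc hcy i3) h6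
      exact si_symm hABc hcy hcz (si_right hABc hcy (hPc.union hcz) Set.subset_union_right h7)

end Pool.Agent.Helper90.MZ
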