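import Pool.Agent.Helper90.MZ.StmtsA

/-! Module SUPB of the crew table `mz_mods`. -/

set_option autoImplicit false

namespace Pool.Agent.Helper90.MZ

open Pool.Agent.Helper90.TS

/-- two models containing independent sets over a model -/
theorem supb_two (h7 : ST_MDLB) {V G : Type} [Group G] [MulAction G V] (X : Ctx V G)
    {M B C : Set V} (hM : M.Countable) (hB : B.Countable) (hC : C.Countable)
    (h : SI X M B C) : ∃ M1 M2, Mdl X M1 ∧ Mdl X M2 ∧ M ⊆ M1 ∧ M ⊆ M2 ∧ B ⊆ M1 ∧ C ⊆ M2 ∧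
      SI X M M1 M2 := by
  obtain ⟨m1, m2, m3, m4, m5, m6, m7⟩ := h7 V G X
  have i1 : SI X M (M ∪ B) C := (si_add_basel hM hB hC).2 h
  obtain ⟨M1, hM1, hBM1, hI1⟩ := m2 M C (M ∪ B) Set.subset_union_left (hM.union hB) hC i1
  have hM1c : M1.Countable := hM1.1
  have i2 : SI X M (M ∪ C) M1 := (si_add_basel hM hC hM1c).2 (si_symm hM hM1c hC hI1)
  obtain ⟨M2, hM2, hCM2, hI2⟩ := m2 M M1 (M ∪ C) Set.subset_union_left (hM.union hC) hM1c i2
  exact ⟨M1, M2, hM1, hM2, Set.subset_union_left.trans hBM1, Set.subset_union_left.trans hCM2,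
    Set.subset_union_right.trans hBM1, Set.subset_union_right.trans hCM2,
    si_symm hM hM2.1 hM1c hI2⟩

theorem st_SUPB (h2 : ST_SRDN) (h3 : ST_SUPU) (h7 : ST_MDLB) (h6 : ST_INVA) (h8 : ST_NOEQ) :
    ST_SUPB := by
  intro V G _ _ X A M q hAM hM hq hsi hS M' hM' hAM'
  obtain ⟨s1, s2, s3, s4, s5, s6, s7, s8⟩ := h3 V G X
  obtain ⟨n1, n2, n3⟩ := h8 V G X
  have hMc : M.Countable := hM.1
  have hM'c : M'.Countable := hM'.1
  have hA : A.Countable := hMc.mono hAM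
  have hqc : q.A.Countable := hq.cnt
  have hmv : ∀ (g : G) (K : Set V), g ∈ Fx G q.A → Sp X K q → Sp X (tr g K) q := by
    intro g K hg hK
    have h := h6 V G X g
    have h1 := h.2.2.2.2.1 K q hK
    have h2 := h.2.2.2.2.2.2.2.2.2.2.2 q hq hg
    exact s3 _ (mv g q) q (h.2.2.1 q hq) hq h2.2.2.2 h1
  -- the first translate
  obtain ⟨g, hg, hgi⟩ := si_ex (X := X) (hA.union hqc) hMc hM'c
  obtain ⟨K, hK⟩ : ∃ K, K = tr g M := ⟨_, rfl⟩
  rw [← hK] at hgi
  have hKc : K.Countable := by rw [hK]; exact tr_countable g hMc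
  have hSK : Sp X K q := by
    rw [hK]
    exact hmv g M (fx_union.1 hg).2 hS
  have i1 : SI X A K q.A := by
    rw [hK]
    exact (si_fx_left hA hMc hqc hg).2 hsi
  have i2 : SI X A K (q.A ∪ M') := si_trans hA hKc hqc hM'c i1 hgi
  have i3 : SI X M' K q.A := by
    rw [Set.union_comm] at i2
    have h5 := ((si_union (X := X) hA hKc hM'c hqc).1 i2).2
    rwa [Set.union_eq_self_of_subset_left hAM'] at h5
  -- the second translate
  obtain ⟨k, hk, hki⟩ := si_ex (X := X) (hM'c.union hqc) hKc hKc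
  obtain ⟨L, hL⟩ : ∃ L, L = tr k K := ⟨_, rfl⟩
  rw [← hL] at hki
  have hLc : L.Countable := by rw [hL]; exact tr_countable k hKc
  have hSL : Sp X L q := by
    rw [hL]
    exact hmv k K (fx_union.1 hk).2 hSK
  have i4 : SI X M' L q.A := by
    rw [hL]
    exact (si_fx_left hM'c hKc hqc hk).2 i3
  have i5 : SI X M' L (q.A ∪ K) := si_trans hM'c hLc hqc hKc i4 hki
  have i6 : SI X M' K L := si_symm hM'c hLc hKc
    (si_right hM'c hLc (hqc.union hKc) Set.subset_union_right i5)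
  obtain ⟨M1, M2, hM1, hM2, hMM1, hMM2, hKM1, hLM2, hI12⟩ := supb_two h7 X hM'c hKc hLc i6
  obtain ⟨s, hs, hsA, hsq⟩ := hSK
  obtain ⟨r, hr, hrA, hrq⟩ := hSL
  have hsr : NO X s r := n3 s q r hs hq hr hsq (n2 r q hrq)
  have hSs : Sp X M' s := h2 V G X M' M1 M2 s r hM' hM1 hM2 hMM1 hMM2 hI12 hs
    (hsA.trans hKM1) hr (hrA.trans hLM2) hsr
  exact s3 M' s q hs hq hsq hSs

end Pool.Agent.Helper90.MZ
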