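import Pool.Agent.Helper90.MZ.StmtsA

/-! Module SUPO of the crew table `mz_mods`. -/

set_option autoImplicit false

namespace Pool.Agent.Helper90.MZ

open Pool.Agent.Helper90.TS

/-- two models containing independent sets over a model -/
theorem supo_two (h7 : ST_MDLB) {V G : Type} [Group G] [MulAction G V] (X : Ctx V G)
    {M B C : Set V} (hM : M.Countable) (hB : B.Countable) (hC : C.Countable)
    (h : SI X M B C) : ∃ M1 M2, Mdl X M1 ∧ Mdl X M2 ∧ M ⊆ M1 ∧ M ⊆ M2 ∧ B ⊆ M1 ∧ C ⊆ M2 ∧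
      SI X M M1 M2 := by
  obtain ⟨m1, m2, m3, m4, m5, m6, m7⟩ := h7 V G X
  have i1 : SI X M (M ∪ B) C := (si_add_basel hM hB hC).2 h
  obtain ⟨M1, hM1, hBM1, hI1⟩ := m2 M C (M ∪ B) Set.subset_union_left (hM.union hB) hC i1
  have hM1c : M1.Countable := hM1.1
  have i2 : SI X M (M ∪ C) M1 := (si_add_basel hM hC hM1c).2 (si_symm hM hM1c hC hI1)
  obtain ⟨M2, hM2, hCM2, hI2⟩ := m2 M M1 (M ∪ C) Set.subset_union_left (hM.union hC) hM1c i2
  exact ⟨M1, M2, hM1, hM2, Set.subset_union_left.trans hBM1, Set.subset_union_left.trans hCM2,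
    Set.subset_union_right.trans hBM1, Set.subset_union_right.trans hCM2,
    si_symm hM hM2.1 hM1c hI2⟩

theorem st_SUPO (h1 : ST_SUPB) (h2 : ST_SRDN) (h3 : ST_SUPU) (h7 : ST_MDLB) (h8 : ST_NOEQ) :
    ST_SUPO := by
  intro V G _ _ X A hA
  obtain ⟨m1, m2, m3, m4, m5, m6, m7⟩ := h7 V G X
  obtain ⟨s1, s2, s3, s4, s5, s6, s7, s8⟩ := h3 V G X
  obtain ⟨n1, n2, n3⟩ := h8 V G X
  constructor
  · intro q q' hq hq' hno hsi
    have hqc : q.A.Countable := hq.cnt
    have hqc' : q'.A.Countable := hq'.cnt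
    obtain ⟨M, hM, hAM, hI⟩ := m2 A (q.A ∪ q'.A) A le_rfl hA (hqc.union hqc')
      (si_self_left hA (hqc.union hqc') le_rfl)
    have hMc : M.Countable := hM.1
    have eA : A ∪ M = M := Set.union_eq_self_of_subset_left hAM
    -- `q.A` and `q'.A` are independent over `M`
    have i1 : SI X A (q.A ∪ q'.A) M := si_symm hA hMc (hqc.union hqc') hI
    have i2 := (si_unionl (X := X) hA hqc hMc hqc').1 i1
    have i3 : SI X A q.A (q'.A ∪ M) := si_trans hA hqc hqc' hMc hsi (by
      have h5 := i1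
      rw [Set.union_comm q.A q'.A] at h5
      exact ((si_unionl (X := X) hA hqc' hMc hqc).1 h5).2)
    have i4 : SI X M q.A q'.A := by
      rw [Set.union_comm] at i3
      have h5 := ((si_union (X := X) hA hqc hMc hqc').1 i3).2
      rwa [eA] at h5
    obtain ⟨M1, M2, hM1, hM2, hMM1, hMM2, hqM1, hqM2, hI12⟩ := supo_two h7 X hMc hqc hqc' i4
    have hS : Sp X M q := h2 V G X M M1 M2 q q' hM hM1 hM2 hMM1 hMM2 hI12 hq hqM1 hq' hqM2 hno
    exact h1 V G X A M q hAM hM hq (si_right hA hMc (hqc.union hqc') Set.subset_union_left hI) hS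
  · intro u v q hu hv hq hSu hSv hsi
    have hqc : q.A.Countable := hq.cnt
    obtain ⟨M, hM, hAM, hI⟩ := m2 A (u ∪ v ∪ q.A) A le_rfl hA ((hu.union hv).union hqc)
      (si_self_left hA ((hu.union hv).union hqc) le_rfl)
    have hMc : M.Countable := hM.1
    have eA : A ∪ M = M := Set.union_eq_self_of_subset_left hAM
    have i1 : SI X A (u ∪ v) M := si_symm hA hMc (hu.union hv)
      (si_right hA hMc ((hu.union hv).union hqc) Set.subset_union_left hI)
    have i3 : SI X A u (v ∪ M) := si_trans hA hu hv hMc hsi (by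
      have h5 := i1
      rw [Set.union_comm u v] at h5
      exact ((si_unionl (X := X) hA hv hMc hu).1 h5).2)
    have i4 : SI X M u v := by
      rw [Set.union_comm] at i3
      have h5 := ((si_union (X := X) hA hu hMc hv).1 i3).2
      rwa [eA] at h5
    obtain ⟨M1, M2, hM1, hM2, hMM1, hMM2, huM1, hvM2, hI12⟩ := supo_two h7 X hMc hu hv i4
    obtain ⟨s, hs, hsA, hsq⟩ := hSu M1 hM1 (Set.union_subset (hAM.trans hMM1) huM1)
    obtain ⟨r, hr, hrA, hrq⟩ := hSv M2 hM2 (Set.union_subset (hAM.trans hMM2) hvM2)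
    have hsr : NO X s r := n3 s q r hs hq hr hsq (n2 r q hrq)
    have hS : Sp X M s := h2 V G X M M1 M2 s r hM hM1 hM2 hMM1 hMM2 hI12 hs hsA hr hrA hsr
    have hS' : Sp X M q := s3 M s q hs hq hsq hS
    exact h1 V G X A M q hAM hM hq (si_right hA hMc ((hu.union hv).union hqc)
      Set.subset_union_right hI) hS'

end Pool.Agent.Helper90.MZ
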