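import Pool.Agent.Helper90.MZ.StmtsC

/-! Module UA of the crew table `mz_mods`. -/

set_option autoImplicit false

namespace Pool.Agent.Helper90.MZ

open Pool.Agent.Helper90.TS

theorem st_UA (h1 : ST_UAC) (h2 : ST_NN) (h3 : ST_MDLB) (h4 : ST_SUPU) (h5 : ST_SUPO)
    (h6 : ST_NOEQ) : ST_UA := by
  intro V G _ _ X p p' q M N M' N' z z' hF hp hp' hq hM hpM hz hN hSN hSM hM' hpM' hz' hN'
    hSN' hSM'
  have hA : Act X p := ⟨M, N, z, q, hM, hpM, hz, hN, hq, hSN, hSM⟩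
  have hA' : Act X p' := ⟨M', N', z', q, hM', hpM', hz', hN', hq, hSN', hSM'⟩
  have hs := h2 V G X p hF hp hA
  have hs' := h2 V G X p' hF hp' hA'
  have hNc : N.Countable := hN.1.1
  have hNc' : N'.Countable := hN'.1.1
  obtain ⟨m1, m2, m3, m4, m5, m6, m7⟩ := h3 V G X
  obtain ⟨M0, hM0, -, hI⟩ := m2 ∅ (N ∪ N') ∅ le_rfl Set.countable_empty (hNc.union hNc')
    si_empty_left
  have hM0c : M0.Countable := hM0.1
  obtain ⟨s1, s2, s3, s4, s5, s6, s7, s8⟩ := h4 V G X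
  obtain ⟨n1, n2, n3⟩ := h6 V G X
  obtain ⟨p0, hp0, hp0M, hp0f, hp0p, hpp0⟩ := s6 M0 p hp (hs M0 hM0 (Set.empty_subset _))
  obtain ⟨p1, hp1, hp1M, hp1f, hp1p, hpp1⟩ := s6 M0 p' hp' (hs' M0 hM0 (Set.empty_subset _))
  have hI1 : SI X ∅ M0 N := si_right Set.countable_empty hM0c (hNc.union hNc')
    Set.subset_union_left hI
  have hI2 : SI X ∅ M0 N' := si_right Set.countable_empty hM0c (hNc.union hNc')
    Set.subset_union_right hI
  obtain ⟨hn, z0, hz0, hb0⟩ := h1 V G X p q M N z hF hp hq hM hpM hz hN hSN hSM M0 p0 hM0 hI1 hp0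
    hp0M hp0p
  obtain ⟨-, z1, hz1, hb1⟩ := h1 V G X p' q M' N' z' hF hp' hq hM' hpM' hz' hN' hSN' hSM' M0 p1
    hM0 hI2 hp1 hp1M hp1p
  have hbf : (p0.A ∪ p1.A).Finite := hp0f.union hp1f
  have hbM : p0.A ∪ p1.A ⊆ M0 := Set.union_subset hp0M hp1M
  have hc0 := hb0 (p0.A ∪ p1.A) hbf Set.subset_union_left hbM
  have hc1 := hb1 (p0.A ∪ p1.A) hbf Set.subset_union_right hbM
  by_contra hno
  have hno' : ¬ NO X p0 p1 := by
    intro h
    exact hno (n3 p p1 p' hp hp1 hp' (n3 p p0 p1 hp hp0 hp1 hpp0 h) hp1p)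
  have hsi : SI X (p0.A ∪ p1.A) (Set.range z0) (Set.range z1) := by
    by_contra hsi
    refine hno' ⟨p0.A ∪ p1.A, z0, z1, hbf.countable, Set.subset_union_left,
      Set.subset_union_right, ⟨hz0.1, ?_⟩, ⟨hz1.1, ?_⟩, hsi⟩
    · exact si_right hp0.cnt (Set.countable_range _) hM0c hbM hz0.2
    · exact si_right hp1.cnt (Set.countable_range _) hM0c hbM hz1.2
  have hsup := (h5 V G X (p0.A ∪ p1.A) hbf.countable).2 (Set.range z0) (Set.range z1) q
    (Set.countable_range _) (Set.countable_range _) hq.1 hc0 hc1 hsi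
  exact hn (hsup M0 hM0 hbM)

end Pool.Agent.Helper90.MZ
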