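import Pool.Agent.Helper90.MZ.StmtsC

/-! Module UAC of the crew table `mz_mods`. -/

set_option autoImplicit false

namespace Pool.Agent.Helper90.MZ

open Pool.Agent.Helper90.TS

theorem st_UAC (h1 : ST_NF) (h2 : ST_NWO) (h3 : ST_EXCH) (h4 : ST_SRDN) (h5 : ST_PRX)
    (h6 : ST_PRIM) (h7 : ST_MDLB) (h8 : ST_RLB) (h9 : ST_SUPU) (h10 : ST_NOEQ) : ST_UAC := by
  intro V G _ _ X p q M N z hF hp hq hM hpM hz hN hSN hSM M0 p0 hM0 hI hp0 hp0M hp0p
  have hNm : Mdl X N := hN.1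
  have hNc : N.Countable := hNm.1
  have hMc : M.Countable := hM.1
  have hM0c : M0.Countable := hM0.1
  have hMN : M ⊆ N := Set.subset_union_left.trans hN.2.1
  have hzN : Set.range z ⊆ N := Set.subset_union_right.trans hN.2.1
  obtain ⟨m1, m2, m3, m4, m5, m6, m7⟩ := h7 V G X
  obtain ⟨s1, s2, s3, s4, s5, s6, s7, s8⟩ := h9 V G X
  obtain ⟨n1, n2, n3⟩ := h10 V G X
  have hI1 : SI X M M0 N := si_up Set.countable_empty hM0c hNc hI (Set.empty_subset _)
    (hMN.trans Set.subset_union_right)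
  have hI2 : SI X M (M ∪ M0) N := (si_add_basel hMc hM0c hNc).2 hI1
  obtain ⟨N1, hN1, hCN1, hI3⟩ := m2 M N (M ∪ M0) Set.subset_union_left (hMc.union hM0c) hNc hI2
  have hN1c : N1.Countable := hN1.1
  have hMN1 : M ⊆ N1 := Set.subset_union_left.trans hCN1
  have hM0N1 : M0 ⊆ N1 := Set.subset_union_right.trans hCN1
  have hI4 : SI X M N1 (Set.range z) := si_right hMc hN1c hNc hzN hI3
  have hI5 : SI X M (Set.range z) N1 := si_symm hMc hN1c (Set.countable_range _) hI4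
  -- `z` realizes `p` over `N1`
  have hz1 : Rl X p N1 z := by
    have h := (h8 V G X p hp M hMc).2.2.2.1 z N1 hN1c hz (by
      rw [Set.union_eq_self_of_subset_left hpM]
      exact hI5)
    rwa [Set.union_eq_self_of_subset_left hMN1] at h
  -- the model `P`
  obtain ⟨N2, hN2, hCN2, -⟩ := m2 (N ∪ N1) ∅ (N ∪ N1) le_rfl (hNc.union hN1c)
    Set.countable_empty si_empty_right
  obtain ⟨P, -, hP⟩ := h6 V G X (N ∪ N1) N2 hN2 hCN2
  have hPm : Mdl X P := hP.1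
  have hNP : N ⊆ P := Set.subset_union_left.trans hP.2.1
  have hN1P : N1 ⊆ P := Set.subset_union_right.trans hP.2.1
  have hP1 : Atm X (N1 ∪ Set.range z) P := by
    have h := h5 V G X M (Set.range z) N1 N P hM (Set.countable_range _) hN1c hN hI4 hP
    have e : M ∪ Set.range z ∪ N1 = N1 ∪ Set.range z := by
      rw [Set.union_assoc, Set.union_comm (Set.range z) N1, ← Set.union_assoc,
        Set.union_eq_self_of_subset_left hMN1]
    rwa [e] at h
  have hSP : Sp X P q := s1 N P q hNP hSN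
  have hSN1 : ¬ Sp X N1 q := by
    rintro ⟨s, hs, hsA, hsq⟩
    obtain ⟨r, hr, hrA, hrq⟩ := hSN
    have hsr : NO X s r := n3 s q r hs hq.1 hr hsq (n2 r q hrq)
    have h := h4 V G X M N1 N s r hM hN1 hNm hMN1 hMN hI3 hs hsA hr hrA hsr
    exact hSM (s3 M s q hs hq.1 hsq h)
  obtain ⟨z0, hz0P, hz0⟩ := h2 V G X p0 p N1 P z hp0 hp hp0p hN1 (hp0M.trans hM0N1)
    (hpM.trans hMN1) hz1 hPm hN1P (hzN.trans hNP)
  obtain ⟨-, -, -, hP2⟩ := h3 V G X p0 p N1 P z0 z hp0 hp hN1 (hp0M.trans hM0N1)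
    (hpM.trans hMN1) hz1 hP1 hz0P hz0
  refine ⟨fun h => hSN1 (s1 M0 N1 q hM0N1 h), z0, ?_, ?_⟩
  · exact (h8 V G X p0 hp0 N1 hN1c).2.2.1 z0 hz0 M0 (hM0N1.trans Set.subset_union_right)
  · intro b0 hb0 hpb hbM
    exact h1 V G X b0 N1 P p0 q z0 hF hb0 hp0 hpb hN1 (hbM.trans hM0N1) hz0 hP2 hq hSP hSN1

end Pool.Agent.Helper90.MZ
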